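import Pool.Agent.E8helper34.SD.App2
import Pool.Agent.Results.MP_65c98c_al.LowDimensionalRigidity
import Pool.Agent.E8helper34.M4.Loc
import Pool.Agent.E8helper34.RG.Rig

set_option autoImplicit false

/-! Infinitesimal rigidity of the irreducible representations of the mapping class group of a closed
surface of genus `g` in which a Dehn twist moves little, or of dimension less than
`4 * binom (g - 5) 2`. -/

namespace Pool.Agent.Results.MP_65c98c_al.SmallDisplacementH34

open Pool.Agent.H29R2.MG Pool.Agent.TH35.MG Pool.Agent.R352.MG Module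
open Pool.Agent.R665.MGR (Humphries Invariant act rho rho_def rho_apply chainTwist)
open Pool.Agent.E8helper34.MR (HG tM aM tM_zero aM_coe tM_coe HG_induction humM)
open Pool.Agent.E8helper34.MC (AA_twist twist_eq)
open Pool.Agent.E8helper34.QA (NRel RRel nrel ww ub uu Vinv Vim N_mem_Vim rrel Nf Ef fixf fix_mem
  equiv_all mem_Vinv X_inv Quad)
open Pool.Agent.E8helper34.SD (quad_disp eq_of_bc)
open Pool.Agent.Results.MP_65c98c_al.LowDimensionalRigidity (IsCocycle IsCoboundary)

universe u

section
variable {g : ℕ} {K V : Type*} [Field K] [AddCommGroup V] [Module K V]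

theorem all_trivial {H : Type*} [Group H] (hg : 7 ≤ g) (φ : HG g →* H) (h : φ (tM g 0) = 1)
    (x : HG g) : φ x = 1 := by
  have r := humM (g := g) (by omega)
  have br : ∀ x y : HG g, x * y * x = y * x * y → φ x = 1 → φ y = 1 := by
    intro x y hb hx
    have h1 := congrArg φ hb
    simp only [map_mul, hx, one_mul, mul_one] at h1
    exact left_eq_mul.1 h1
  have ht : ∀ j < 2 * g, φ (tM g j) = 1 := by
    intro j
    induction j with
    | zero => intro _; exact h
    | succ j ih => intro hj; exact br _ _ (r.braid j hj) (ih (by omega))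
  have he : φ (aM g 1) = 1 := br _ _ r.braidE (ht 3 (by omega))
  induction x using HG_induction (g := g) (by omega) with
  | ht j hj => exact ht j hj
  | he => exact he
  | h1 => exact map_one φ
  | hmul x y hx hy => rw [map_mul, hx, hy, one_mul]
  | hinv x hx => rw [map_inv, hx, inv_one]

/-- an irreducible nontrivial quadratic representation has dimension at most `2 g` -/
theorem dim_quad (hg : 7 ≤ g) (ρ : HG g →* Module.End K V) (q : Quad ρ)
    (hirr : ∀ W : Submodule K V, (∀ x, ∀ v ∈ W, ρ x v ∈ W) → W = ⊥ ∨ W = ⊤)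
    (hnt : ∃ x, ρ x ≠ 1) : finrank K V ≤ 2 * g := by
  have r : NRel (2 * g) (Nf ρ) (Ef ρ) := nrel (humM (by omega)) (by omega) ρ q.h0 q.h1
  have hV : Vinv (2 * g) (Nf ρ) (Ef ρ) = ⊥ := by
    rcases hirr (Vinv (2 * g) (Nf ρ) (Ef ρ)) (by
      intro x v hv
      rw [fixf ρ (by omega) x v hv]
      exact hv) with h | h
    · exact h
    · exfalso
      obtain ⟨x, hx⟩ := hnt
      apply hx
      apply LinearMap.ext
      intro v
      exact fixf ρ (by omega) x v (h ▸ Submodule.mem_top)
  have hne : ∃ v, Nf ρ 0 (Nf ρ 1 v) ≠ 0 := by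
    by_contra hcon
    push Not at hcon
    have h0 : ρ (tM g 0) = 1 := by
      apply LinearMap.ext
      intro v
      have h1 := X_inv r (by omega) (j := 0) (by omega) v
      rw [hV, Submodule.mem_bot, show 0 + 1 = 1 from rfl, hcon, add_zero] at h1
      exact sub_eq_zero.1 h1
    obtain ⟨x, hx⟩ := hnt
    apply hx
    have h1 := all_trivial hg ρ.toHomUnits (Units.ext h0) x
    exact congrArg Units.val h1
  obtain ⟨v, hv⟩ := hne
  have hy : Nf ρ 1 v ∈ Vim (2 * g) (Nf ρ) (Ef ρ) := N_mem_Vim (by omega) _
  have rr := rrel r (by omega) hy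
  rw [hV] at rr
  let W : Submodule K V := Submodule.span K (Set.range (ub g (ww (Nf ρ) (Nf ρ 1 v))))
  have hW : ∀ x, ∀ w ∈ W, ρ x w ∈ W := by
    intro x w hw
    obtain ⟨φ, -, hφ⟩ := equiv_all ρ hg (W1 := ⊥) (by
      intro z v hv
      rw [(Submodule.mem_bot K).1 hv, map_zero]
      exact Submodule.zero_mem _) rr x
    induction hw using Submodule.span_induction with
    | mem w hw =>
      obtain ⟨i, rfl⟩ := hw
      have h1 := (Submodule.mem_bot K).1 (hφ (gen i))
      rw [sub_eq_zero] at h1
      have h2 : ∑ j, (homologyClass (gen i : SurfaceGroup g) j : K) •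
          ub g (ww (Nf ρ) (Nf ρ 1 v)) j = ub g (ww (Nf ρ) (Nf ρ 1 v)) i := by
        rw [Pool.Agent.E8helper34.MR.hc_gen, Finset.sum_eq_single i]
        · simp
        · intro j _ hj
          rw [Pi.single_eq_of_ne hj]
          simp
        · intro hx; exact absurd (Finset.mem_univ _) hx
      rw [h2] at h1
      rw [h1]
      exact Submodule.sum_mem _ fun j _ => Submodule.smul_mem _ _ (Submodule.subset_span ⟨j, rfl⟩)
    | zero => rw [map_zero]; exact W.zero_mem
    | add a b _ _ ha hb => rw [map_add]; exact W.add_mem ha hb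
    | smul c a _ ha => rw [map_smul]; exact W.smul_mem c ha
  rcases hirr W hW with h | h
  · exfalso
    apply hv
    have h1 : ub g (ww (Nf ρ) (Nf ρ 1 v)) (Sum.inl ⟨0, by omega⟩) ∈ W :=
      Submodule.subset_span ⟨_, rfl⟩
    rw [h, Submodule.mem_bot] at h1
    exact h1
  · have h1 : finrank K W ≤ Fintype.card (Fin g ⊕ Fin g) := finrank_range_le_card _
    rw [h, finrank_top, Fintype.card_sum, Fintype.card_fin] at h1
    omega

end

/-- Let the genus be `g ≥ 13`, let `K` be a field and `ρ : Mod_g → GL_d(K)`, `d` arbitrary, a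
representation whose restriction to the subgroup `M` generated by Humphries' Dehn twists (all of
`Mod_g`, by Humphries' theorem, which is not used) is irreducible and not trivial. Suppose that
`ρ(T) - 1` has rank less than `2 g - 2` for the Dehn twist `T` about `a_0`, or that
`d < 4 binom (g - 5) 2 = 2 (g - 5) (g - 6)`. Then `ρ` is
infinitesimally rigid: every 1-cocycle with values in `ad ρ` is on `M` a coboundary. -/
theorem result {g d : ℕ} (hg : 13 ≤ g) {K : Type u} [Field K]
    (ρ : Mod g →* Matrix.GeneralLinearGroup (Fin d) K)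
    (hirr : ∀ W : Submodule K (Fin d → K), Invariant ρ W → W = ⊥ ∨ W = ⊤)
    (hnt : ∃ x ∈ Humphries g, ρ x ≠ 1) (T : Mod g) (hT : IsTwistAt g 0 T)
    (hrk : ((ρ T : Matrix (Fin d) (Fin d) K) - 1).rank < 2 * g - 2 ∨ d < 4 * (g - 5).choose 2)
    (c : Mod g → Matrix (Fin d) (Fin d) K) (hc : IsCocycle ρ c) : IsCoboundary ρ c := by
  have hdim : d ≤ 2 * g := by
    let ρ' : HG g →* Module.End K (Fin d → K) := (rho ρ).comp (Humphries g).subtype
    have hρ' : ∀ x : HG g, ρ' x = rho ρ (x : Mod g) := fun x => rfl
    have e0 : ((tM g 0 : HG g) : Mod g) = T := by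
      rw [tM_zero (by omega), aM_coe (by omega) (by omega)]
      exact (twist_eq (by omega) hT).symm
    have hq : Quad ρ' := by
      rcases hrk with hrk | hrk
      swap
      · have h4 := Pool.Agent.E8helper34.M4.prod_zero (g := g) (K := K) (V := Fin d → K) (by
          rw [Module.finrank_fin_fun, Pool.Agent.E8helper34.M4.bd_eq (by omega)]
          exact hrk) ρ'
        exact ⟨h4.1, h4.2⟩
      let D : Submodule K (Fin d → K) := LinearMap.range (rho ρ T - 1)
      have hD : finrank K D < 2 * g - 2 := by
        have e1 : rho ρ T - 1 = Matrix.toLin' ((ρ T : Matrix (Fin d) (Fin d) K) - 1) := by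
          rw [map_sub, Matrix.toLin'_one]
          rfl
        have h2 : finrank K (LinearMap.range (rho ρ T - 1)) < 2 * g - 2 := by
          rw [e1]
          exact hrk
        exact h2
      let b := finBasis K D
      refine quad_disp (g := g) (by omega) ρ' (d := finrank K D) (by omega)
        (fun i => ((b i : D) : Fin d → K)) ?_ ?_
      · intro i
        obtain ⟨v, hv⟩ := (b i).2
        refine ⟨v, ?_⟩
        rw [hρ', e0]
        exact hv.symm
      · intro v
        have hv : rho ρ T v - v ∈ D := ⟨v, rfl⟩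
        refine ⟨fun i => b.repr ⟨_, hv⟩ i, ?_⟩
        have h1 : rho ρ T v - v = ((∑ i, b.repr ⟨_, hv⟩ i • b i : D) : Fin d → K) :=
          (congrArg Subtype.val (b.sum_repr ⟨_, hv⟩)).symm
        rw [hρ', e0]
        refine h1.trans ?_
        rw [Submodule.coe_sum]
        rfl
    have h1 := dim_quad (K := K) (by omega) ρ' hq (by
      intro W hW
      apply hirr W
      intro x hx v hv
      have := hW ⟨x, hx⟩ v hv
      rw [hρ', rho_apply] at this
      exact this) (by
      obtain ⟨x, hx, hne⟩ := hnt
      refine ⟨⟨x, hx⟩, fun h => hne ?_⟩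
      apply Units.ext
      apply (Matrix.toLinAlgEquiv' (R := K) (n := Fin d)).injective
      rw [← rho_def, Units.val_one, map_one]
      exact h)
    rwa [Module.finrank_fin_fun] at h1
  exact Pool.Agent.E8helper34.RG.rigid_two (by omega) hdim K ρ hirr hnt c hc

end Pool.Agent.Results.MP_65c98c_al.SmallDisplacementH34
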